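import Pool.Agent.Helper47.FLG.Fun

/-!
# Project FLG, packet FRC: quarter pinched flag curvature and the Ricci tensor
-/

namespace Pool.Agent.Helper47.FLG

open Finset Pool.Agent.Helper47.RFn Pool.Agent.Helper73.RFn

theorem p_FRC (hFG2 : G_FG2) (hRP1 : RFn.Goal_RP1) (hRP2 : RFn.Goal_RP2) (hRP3 : RFn.Goal_RP3)
    (hFRF : RFn.Goal_FRF) : G_FRC := by
  intro n hn A θ hF x hx hFG
  obtain ⟨-, -, -, -, -, -, -, -, -, -, -, -, hnu, hcurv, hker, -, -, -⟩ := hFRF n A θ hF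
  have hor : Hor (fun a => nfc A a x) (RT A θ x) := ⟨hcurv x hx, hker x hx⟩
  obtain ⟨ι, hι⟩ := hRP1 n (fun a => nfc A a x) (hnu x hx)
  obtain ⟨-, -, -, -, hlam, -, -, -, hrq, -, -⟩ := hRP2 n _ ι (RT A θ x) hι hor
  obtain ⟨-, -, -, -, -, -, -, -, -, -, hnrm, -⟩ := hRP3 n _ ι hι
  have hl : lam (pull ι (RT A θ x)) = lamf A θ x := by
    rw [hlam]
    show (∑ a, Rcf A θ a a x) / n = 1 / (n : ℝ) * ∑ a, Rcf A θ a a x
    ring
  obtain ⟨h0, -, -, -, -, hric, -⟩ := hFG2 n hn _ (hFG ι hι)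
  rw [hl] at h0 hric
  have hnn : ∀ v : Ix n → ℝ, 0 ≤ nrm v - dot v (fun a => nfc A a x) ^ 2 := by
    intro v
    have h1 := hnrm v
    have h2 : ∑ i, (fun a => nfc A a x) i * v i = dot v (fun a => nfc A a x) := by
      unfold dot
      exact sum_congr rfl fun i _ => mul_comm _ _
    rw [h2] at h1
    rw [← h1]
    exact sum_nonneg fun i _ => sq_nonneg _
  have hmain : RcF (lamf A θ x / 16) A θ x := by
    intro v
    have h1 := hric (pullr ι v)
    have h2 : ∑ i, (fun a => nfc A a x) i * v i = dot v (fun a => nfc A a x) := by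
      unfold dot
      exact sum_congr rfl fun i _ => mul_comm _ _
    rw [hnrm v, h2, ← hrq v] at h1
    exact h1
  refine ⟨h0, hmain, ?_⟩
  intro v
  rw [zero_mul]
  exact (mul_nonneg (by positivity) (hnn v)).trans (hmain v)

end Pool.Agent.Helper47.FLG
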