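import Pool.Agent.Helper47.FLG.Pde

/-!
# Project FLG, packet GRH: the gradient estimate for the heat equation along the Ricci flow
-/

namespace Pool.Agent.Helper47.FLG

open Finset Pool.Agent.Helper47.RFn

namespace GRHaux

/-- Second order chain rule (copied from `Pool/Agent/Helper40/RFn/P3.lean`). -/
theorem hop_comp {n : ℕ} {T : ℝ} {F : FB n T} (hF : F.Base) {φ φ1 φ2 : ℝ → ℝ} {U : Set ℝ}
    (hU : IsOpen U) (hφ : ContDiffOn ℝ ((⊤ : ℕ∞) : WithTop ℕ∞) φ U)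
    (h1 : ∀ x ∈ U, HasDerivAt φ (φ1 x) x) (h2 : ∀ x ∈ U, HasDerivAt φ1 (φ2 x) x)
    {f g : F.B} (hf : ∀ z t, F.ev z t f ∈ U) (hg : ∀ z t, F.ev z t g = φ (F.ev z t f))
    (z : F.Z) (t : TI T) :
    (∀ a, F.ev z t (F.H a g) = φ1 (F.ev z t f) * F.ev z t (F.H a f)) ∧
    F.ev z t (F.D g) = φ1 (F.ev z t f) * F.ev z t (F.D f) ∧
    F.ev z t (F.Hop g) = φ1 (F.ev z t f) * F.ev z t (F.Hop f)
      - φ2 (F.ev z t f) * F.ev z t (F.gg f f) := by
  have hd : ∀ x ∈ U, deriv φ x = φ1 x := fun x hx => (h1 x hx).deriv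
  have hdd : ∀ x ∈ U, deriv (deriv φ) x = φ2 x := by
    intro x hx
    have e : deriv φ =ᶠ[nhds x] φ1 := by
      filter_upwards [hU.mem_nhds hx] with y hy
      exact hd y hy
    rw [e.deriv_eq]
    exact (h2 x hx).deriv
  have hφ1 : ContDiffOn ℝ ((⊤ : ℕ∞) : WithTop ℕ∞) (deriv φ) U :=
    hφ.deriv_of_isOpen hU (by simp)
  obtain ⟨g1, hg1⟩ := hF.comp (deriv φ) U hU hφ1 f hf
  have e : ∀ a, F.H a g = g1 * F.H a f := fun a => hF.ext _ _ (fun z t => by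
    rw [map_mul, hg1, (hF.chain φ U hU hφ f g hf hg z t).1 a])
  have c0 := hF.chain φ U hU hφ f g hf hg z t
  have c1 := hF.chain (deriv φ) U hU hφ1 f g1 hf hg1 z t
  rw [hd _ (hf z t)] at c0
  rw [hdd _ (hf z t)] at c1
  have hg1' : F.ev z t g1 = φ1 (F.ev z t f) := by rw [hg1, hd _ (hf z t)]
  refine ⟨c0.1, c0.2.2, ?_⟩
  unfold FB.Hop FB.Lap FB.gg
  simp only [map_sub, map_sum, map_mul]
  rw [c0.2.2]
  have e2 : ∀ a, F.ev z t (F.H a (F.H a g)) = φ1 (F.ev z t f) * F.ev z t (F.H a (F.H a f))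
      + φ2 (F.ev z t f) * (F.ev z t (F.H a f) * F.ev z t (F.H a f)) := by
    intro a
    rw [e a, Derivation.leibniz]
    simp only [smul_eq_mul, map_add, map_mul]
    rw [hg1', c1.1 a]
    ring
  simp only [e2]
  rw [Finset.sum_add_distrib, ← Finset.mul_sum, ← Finset.mul_sum]
  ring

/-- the gradient of a composition, contracted -/
theorem gg_comp {n : ℕ} {T : ℝ} {F : FB n T} {f g h : F.B} {z : F.Z} {t : TI T} {r : ℝ}
    (hg : ∀ a, F.ev z t (F.H a g) = r * F.ev z t (F.H a f)) :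
    F.ev z t (F.gg h g) = r * F.ev z t (F.gg h f) := by
  unfold FB.gg
  simp only [map_sum, map_mul, hg]
  rw [mul_sum]
  exact sum_congr rfl fun a _ => by ring

/-- the real inequality -/
theorem realI {x p h X : ℝ} (hx : 0 < x) (_hp : 0 ≤ p) (hh : 0 ≤ h)
    (hX : X ^ 2 ≤ 4 * p ^ 2 * h) :
    p * (-2 * (x⁻¹) ^ 3 * p) + x⁻¹ * (-(2 * h)) - 2 * (-(x⁻¹) ^ 2 * X) ≤ 0 := by
  have hr : 0 < x⁻¹ := inv_pos.mpr hx
  set r := x⁻¹
  have h1 : (r * X) ^ 2 ≤ (r ^ 2 * p ^ 2 + h) ^ 2 := by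
    have h2 : (r * X) ^ 2 ≤ r ^ 2 * (4 * p ^ 2 * h) := by
      rw [mul_pow]
      exact mul_le_mul_of_nonneg_left hX (sq_nonneg r)
    nlinarith [sq_nonneg (r ^ 2 * p ^ 2 - h)]
  have h3 : r * X ≤ r ^ 2 * p ^ 2 + h :=
    (le_abs_self _).trans (abs_le_of_sq_le_sq h1 (by positivity))
  have h4 : p * (-2 * r ^ 3 * p) + r * (-(2 * h)) - 2 * (-r ^ 2 * X) =
      -(2 * r) * (r ^ 2 * p ^ 2 + h - r * X) := by ring
  rw [h4]
  have h5 : 0 ≤ 2 * r * (r ^ 2 * p ^ 2 + h - r * X) :=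
    mul_nonneg (by positivity) (by linarith)
  linarith

end GRHaux

open GRHaux

theorem g_GRH (hMP1 : RFn.Goal_MP1) (hEVS : RFn.Goal_EVS) (hBIA : RFn.Goal_BIA)
    (hPRD : RFn.Goal_PRD) (_hVIN : RFn.Goal_VIN) : G_GRH := by
  intro n hn T F hF hRF q c M hc hVq hDq hq hBd z0 t0
  have hB : F.Base := hF.toBase
  have hq0 : ∀ z t, 0 < F.ev z t q := fun z t => hc.trans_le (hq z t).1
  have hM0 : 0 < M := (hq0 z0 t0).trans (hq z0 t0).2
  have hHq : F.Hop q = 0 := by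
    unfold FB.Hop
    rw [hDq, sub_self]
  -- the inverse of `q`
  have hcd1 : ContDiffOn ℝ ((⊤ : ℕ∞) : WithTop ℕ∞) (fun x : ℝ => x⁻¹) (Set.Ioi 0) :=
    fun x hx => (contDiffAt_inv ℝ (Set.mem_Ioi.mp hx).ne').contDiffWithinAt
  have hd1 : ∀ x ∈ Set.Ioi (0 : ℝ), HasDerivAt (fun x : ℝ => x⁻¹) (-(x⁻¹) ^ 2) x := by
    intro x hx
    have h := hasDerivAt_inv (Set.mem_Ioi.mp hx).ne'
    rwa [← inv_pow] at h
  have hd1' : ∀ x ∈ Set.Ioi (0 : ℝ), HasDerivAt (fun x : ℝ => -(x⁻¹) ^ 2) (2 * (x⁻¹) ^ 3) x := by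
    intro x hx
    have h := ((hd1 x hx).pow 2).neg
    refine h.congr_deriv ?_
    ring
  obtain ⟨g, hg⟩ := hB.comp (fun x : ℝ => x⁻¹) (Set.Ioi 0) isOpen_Ioi hcd1 q hq0
  -- the logarithm
  have hcd2 : ContDiffOn ℝ ((⊤ : ℕ∞) : WithTop ℕ∞) (fun x : ℝ => Real.log M - Real.log x)
      (Set.Ioi 0) :=
    fun x hx => (contDiffAt_const.sub (Real.contDiffAt_log.mpr (Set.mem_Ioi.mp hx).ne')).contDiffWithinAt
  have hd2 : ∀ x ∈ Set.Ioi (0 : ℝ), HasDerivAt (fun x : ℝ => Real.log M - Real.log x) (-x⁻¹) x := by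
    intro x hx
    exact (Real.hasDerivAt_log (Set.mem_Ioi.mp hx).ne').const_sub _
  have hd2' : ∀ x ∈ Set.Ioi (0 : ℝ), HasDerivAt (fun x : ℝ => -x⁻¹) ((x⁻¹) ^ 2) x := by
    intro x hx
    exact (hd1 x hx).neg.congr_deriv (neg_neg _)
  obtain ⟨L, hL⟩ := hB.comp (fun x : ℝ => Real.log M - Real.log x) (Set.Ioi 0) isOpen_Ioi hcd2 q hq0
  have kg := fun z t => hop_comp hB isOpen_Ioi hcd1 hd1 hd1' hq0 hg z t
  have kL := fun z t => hop_comp hB isOpen_Ioi hcd2 hd2 hd2' hq0 hL z t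
  set p : F.B := F.gg q q with hp
  have hHp : F.Hop p = -((2 : ℝ) • F.h2 q) :=
    ((hEVS n T F (by omega) hF hRF).2.2.2.2 q hVq hHq).1
  have hprd := (hPRD n T F).1
  obtain ⟨C, -, hbia⟩ := hBIA n (by omega)
  have hpos : ∀ z t, 0 ≤ F.ev z t p ∧ 0 ≤ F.ev z t (F.h2 q) ∧
      F.ev z t (F.gg p q) ^ 2 ≤ 4 * F.ev z t p ^ 2 * F.ev z t (F.h2 q) := by
    intro z t
    have h := (hbia T F hF z t).2.2.2.2.2.2.2 q
    exact ⟨h.1, h.2.1, h.2.2.1⟩
  -- heat operator of the quotient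
  have hQ : ∀ z t, F.ev z t (F.Hop (p * g)) ≤ 0 := by
    intro z t
    rw [(hprd p g).1, hHp]
    simp only [map_sub, map_add, map_mul, map_smul, map_neg, smul_eq_mul]
    rw [(kg z t).2.2, hHq, map_zero, hg, gg_comp (kg z t).1]
    obtain ⟨h1, h2, h3⟩ := hpos z t
    have h := realI (hq0 z t) h1 h2 h3
    refine le_trans (le_of_eq ?_) h
    ring
  have hHL : ∀ z t, F.ev z t (F.Hop (q * L)) = (F.ev z t q)⁻¹ * F.ev z t p := by
    intro z t
    rw [(hprd q L).1, hHq]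
    simp only [map_sub, map_add, map_mul, map_smul, map_zero, smul_eq_mul]
    rw [(kL z t).2.2, hHq, map_zero, gg_comp (kL z t).1, ← hp]
    have hne : F.ev z t q ≠ 0 := (hq0 z t).ne'
    field_simp
    ring
  have hHt : F.Hop F.tt = 1 := by
    unfold FB.Hop FB.Lap
    rw [hB.tt_D]
    simp [hB.tt_H]
  have hHtt : ∀ X, F.gg F.tt X = 0 := by
    intro X
    unfold FB.gg
    simp [hB.tt_H]
  set f : F.B := q * L - F.tt * (p * g) with hf
  have hHf : ∀ z (t : TI T), 0 ≤ F.ev z t (F.Hop f) := by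
    intro z t
    rw [hf, (hprd _ _).2.2.1, (hprd F.tt (p * g)).1, hHt, hHtt]
    simp only [map_sub, map_add, map_mul, map_smul, map_zero, map_one, smul_eq_mul]
    rw [hHL, hB.tt_ev, hg]
    have h1 := hQ z t
    have h2 : 0 < (t : ℝ) := t.2.1
    have h3 : (t : ℝ) * F.ev z t (F.Hop (p * g)) ≤ 0 := mul_nonpos_of_nonneg_of_nonpos h2.le h1
    have h4 : F.ev z t p * (F.ev z t q)⁻¹ = (F.ev z t q)⁻¹ * F.ev z t p := mul_comm _ _
    linarith
  have hfe : ∀ z (t : TI T), F.ev z t f = F.ev z t q * (Real.log M - Real.log (F.ev z t q)) -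
      t * (F.ev z t p * (F.ev z t q)⁻¹) := by
    intro z t
    rw [hf]
    simp only [map_sub, map_mul]
    rw [hL, hB.tt_ev, hg]
  have hlog : ∀ z (t : TI T), 0 ≤ F.ev z t q * (Real.log M - Real.log (F.ev z t q)) := by
    intro z t
    have h1 := Real.log_le_log (hq0 z t) (hq z t).2.le
    exact mul_nonneg (hq0 z t).le (by linarith)
  have hmain : 0 ≤ F.ev z0 t0 f := by
    refine hMP1 n T F hB f 0 t0 0 1 le_rfl t0.2.2 le_rfl one_pos ?_ ?_ z0 t0 t0.2.1 le_rfl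
    · intro ε hε
      obtain ⟨C', t1, ht1, -, hC'⟩ := hBd
      have hC0 : 0 ≤ max C' 0 := le_max_right _ _
      refine ⟨min t1 (ε * c / (max C' 0 + 1)), lt_min ht1 (by positivity), ?_⟩
      intro z t ht ht'
      rw [zero_add] at ht'
      have h1 := hC' z t (ht'.trans_le (min_le_left _ _))
      have h2 : (t : ℝ) < ε * c / (max C' 0 + 1) := ht'.trans_le (min_le_right _ _)
      have h3 : F.ev z t p ≤ max C' 0 := ((le_abs_self _).trans h1).trans (le_max_left _ _)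
      have h4 : (F.ev z t q)⁻¹ ≤ c⁻¹ := inv_anti₀ hc (hq z t).1
      have h5 : F.ev z t p * (F.ev z t q)⁻¹ ≤ (max C' 0 + 1) * c⁻¹ := by
        refine mul_le_mul (by linarith) h4 (inv_pos.mpr (hq0 z t)).le (by linarith)
      have h6 : (t : ℝ) * (F.ev z t p * (F.ev z t q)⁻¹) ≤
          ε * c / (max C' 0 + 1) * ((max C' 0 + 1) * c⁻¹) := by
        refine mul_le_mul h2.le h5 ?_ (by positivity)
        exact mul_nonneg (hpos z t).1 (inv_pos.mpr (hq0 z t)).le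
      have h7 : ε * c / (max C' 0 + 1) * ((max C' 0 + 1) * c⁻¹) = ε := by
        have : max C' 0 + 1 ≠ 0 := by positivity
        field_simp
      rw [hfe]
      have h8 := hlog z t
      linarith
    · intro z t _ _ _ _ _
      rw [zero_mul]
      exact hHf z t
  rw [hfe] at hmain
  have hx := hq0 z0 t0
  have h1 : (t0 : ℝ) * (F.ev z0 t0 p * (F.ev z0 t0 q)⁻¹) ≤
      F.ev z0 t0 q * (Real.log M - Real.log (F.ev z0 t0 q)) := by linarith
  have h2 := mul_le_mul_of_nonneg_right h1 hx.le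
  have h3 : (t0 : ℝ) * (F.ev z0 t0 p * (F.ev z0 t0 q)⁻¹) * F.ev z0 t0 q = t0 * F.ev z0 t0 p := by
    field_simp
  rw [h3] at h2
  rw [Real.log_div hM0.ne' hx.ne']
  refine h2.trans (le_of_eq ?_)
  ring

end Pool.Agent.Helper47.FLG
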