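import Pool.Agent.Helper47.FLG.Alg

/-!
# Project FLG, packet ROT: rotations of curvature tensors
-/

namespace Pool.Agent.Helper47.FLG

open Finset Pool.Agent.Helper47.RFn

namespace ROTaux

/-- a linear functional commutes with finite sums -/
theorem lin_sum {n m : ℕ} (F : (Fin n → ℝ) → ℝ) (G : Fin n → ℝ) (h : ∀ a, F a = ∑ j, a j * G j)
    (a : Fin m → ℝ) (M : Fin m → Fin n → ℝ) :
    F (fun j => ∑ p, a p * M p j) = ∑ p, a p * F (M p) := by
  simp only [h, sum_mul, mul_sum]
  rw [sum_comm]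
  exact sum_congr rfl fun p _ => sum_congr rfl fun j _ => by ring

section on

variable {n : ℕ} {O : Fin n → Fin n → ℝ}

theorem row (hO : ON O) (i j : Fin n) : ∑ k, O i k * O j k = if i = j then 1 else 0 := hO i j

theorem col (hO : ON O) (i j : Fin n) : ∑ k, O k i * O k j = if i = j then 1 else 0 := by
  have h1 : (Matrix.of O) * (Matrix.of O).transpose = 1 := by
    ext a b
    rw [Matrix.mul_apply, Matrix.one_apply]
    exact hO a b
  have h2 : (Matrix.of O).transpose * (Matrix.of O) = 1 := mul_eq_one_comm.mp h1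
  have h3 := congrFun (congrFun h2 i) j
  rw [Matrix.mul_apply, Matrix.one_apply] at h3
  exact h3

/-- `Oᵀ (O u) = u` -/
theorem back (hO : ON O) (u : Fin n → ℝ) : (fun j => ∑ p, dot (O p) u * O p j) = u := by
  funext j
  have h1 : ∀ p, dot (O p) u * O p j = ∑ k, u k * (O p k * O p j) := by
    intro p
    unfold dot
    rw [sum_mul]
    exact sum_congr rfl fun k _ => by ring
  simp only [h1]
  rw [sum_comm]
  simp only [← mul_sum, col hO]
  simp

/-- `Oᵀ` is an isometry -/
theorem dot_T (hO : ON O) (u v : Fin n → ℝ) :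
    dot (fun j => ∑ p, u p * O p j) (fun j => ∑ p, v p * O p j) = dot u v := by
  have h1 : dot (fun j => ∑ p, u p * O p j) (fun j => ∑ p, v p * O p j) =
      ∑ p, ∑ q, u p * v q * ∑ j, O p j * O q j := by
    have h2 : ∀ j, (∑ p, u p * O p j) * (∑ q, v q * O q j) = ∑ p, ∑ q, u p * v q * (O p j * O q j) := by
      intro j
      rw [sum_mul_sum]
      exact sum_congr rfl fun p _ => sum_congr rfl fun q _ => by ring
    unfold dot
    simp only [h2]
    rw [sum_comm]
    refine sum_congr rfl fun p _ => ?_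
    rw [sum_comm]
    exact sum_congr rfl fun q _ => (mul_sum _ _ _).symm
  rw [h1]
  simp only [row hO]
  simp [dot]

/-- `O` is an isometry -/
theorem dot_O (hO : ON O) (u v : Fin n → ℝ) :
    dot (fun a => dot (O a) u) (fun a => dot (O a) v) = dot u v := by
  rw [← dot_T hO, back hO, back hO]

/-- invariance of the trace of a bilinear form -/
theorem pars2 (hO : ON O) (F : (Fin n → ℝ) → (Fin n → ℝ) → ℝ) (F' : Fin n → Fin n → ℝ)
    (h : ∀ x y, F x y = ∑ i, ∑ j, x i * y j * F' i j) : ∑ e, F (O e) (O e) = ∑ e, F' e e := by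
  simp only [h]
  rw [sum_comm]
  refine sum_congr rfl fun i _ => ?_
  rw [sum_comm]
  simp only [← sum_mul, col hO]
  simp

end on

theorem wd_T {n : ℕ} {O : Fin n → Fin n → ℝ} (hO : ON O) (hn : ∀ u : Fin n → ℝ, nrm u = dot u u)
    (u v : Fin n → ℝ) :
    wd (fun j => ∑ p, u p * O p j) (fun j => ∑ p, v p * O p j) = wd u v := by
  unfold wd
  rw [hn, hn, hn u, hn v, dot_T hO, dot_T hO, dot_T hO]

/-! permutations of the arguments -/

theorem R4_swap34 {n : ℕ} (T : T4 n) (x y z w : Fin n → ℝ) :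
    R4 (fun a b c d => T a b d c) x y z w = R4 T x y w z := by
  unfold R4
  refine sum_congr rfl fun i _ => sum_congr rfl fun j _ => ?_
  rw [sum_comm]
  exact sum_congr rfl fun k _ => sum_congr rfl fun l _ => by ring

theorem R4_swap23 {n : ℕ} (T : T4 n) (x y z w : Fin n → ℝ) :
    R4 (fun a b c d => T a c b d) x y z w = R4 T x z y w := by
  unfold R4
  refine sum_congr rfl fun i _ => ?_
  rw [sum_comm]
  exact sum_congr rfl fun k _ => sum_congr rfl fun j _ => sum_congr rfl fun l _ => by ring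

theorem R4_cyc {n : ℕ} (T : T4 n) (x y z w : Fin n → ℝ) :
    R4 (fun a b c d => T a d b c) x y z w = R4 T x w y z := by
  rw [R4_swap34 (fun a b c d => T a c b d), R4_swap23]

theorem R4_comb {n : ℕ} (T1 T2 T3 T4' : T4 n) (x y z w : Fin n → ℝ) :
    R4 (fun a b c d => T1 a b c d - T2 a b c d + T3 a b c d - T4' a b c d) x y z w =
      R4 T1 x y z w - R4 T2 x y z w + R4 T3 x y z w - R4 T4' x y z w := by
  unfold R4
  simp only [← sum_sub_distrib, ← sum_add_distrib]
  exact sum_congr rfl fun i _ => sum_congr rfl fun j _ => sum_congr rfl fun k _ =>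
    sum_congr rfl fun l _ => by ring

theorem R4_Q {n : ℕ} (R : T4 n) (x y z w : Fin n → ℝ) :
    R4 (Q R) x y z w = R4 (BB R R) x y z w - R4 (BB R R) x y w z + R4 (BB R R) x z y w -
      R4 (BB R R) x w y z := by
  have h1 := R4_swap34 (BB R R) x y z w
  have h2 := R4_swap23 (BB R R) x y z w
  have h3 := R4_cyc (BB R R) x y z w
  rw [← h1, ← h2, ← h3]
  exact R4_comb (BB R R) (fun a b c d => BB R R a b d c) (fun a b c d => BB R R a c b d)
    (fun a b c d => BB R R a d b c) x y z w

/-- two slots filled with basis vectors -/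
theorem R4_sb {n : ℕ} (R : T4 n) (x y : Fin n → ℝ) (e f : Fin n) :
    R4 R x (sb e) y (sb f) = ∑ i, ∑ k, R i e k f * x i * y k := by
  unfold R4 sb
  refine sum_congr rfl fun i _ => ?_
  rw [sum_comm]
  refine sum_congr rfl fun k _ => ?_
  simp

theorem R4_BB {n : ℕ} (R S : T4 n) (x y z w : Fin n → ℝ) :
    R4 (BB R S) x y z w = ∑ e, ∑ f, R4 R x (sb e) y (sb f) * R4 S z (sb e) w (sb f) := by
  have h0 : ∀ e f, R4 R x (sb e) y (sb f) * R4 S z (sb e) w (sb f) =
      ∑ i, ∑ j, ∑ k, ∑ l, R i e j f * x i * y j * (S k e l f * z k * w l) := by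
    intro e f
    rw [R4_sb, R4_sb, sum_mul]
    refine sum_congr rfl fun i _ => ?_
    rw [sum_mul]
    refine sum_congr rfl fun j _ => ?_
    rw [mul_sum]
    exact sum_congr rfl fun k _ => mul_sum _ _ _
  simp only [h0]
  unfold R4 BB
  simp only [sum_mul]
  -- left: i j k l e f, right: e f i k j l
  have h1 : ∀ G : Fin n → Fin n → Fin n → Fin n → Fin n → Fin n → ℝ,
      ∑ i, ∑ j, ∑ k, ∑ l, ∑ e, ∑ f, G i j k l e f = ∑ e, ∑ f, ∑ i, ∑ j, ∑ k, ∑ l, G i j k l e f := by
    intro G
    have s1 : ∀ i j k, ∑ l, ∑ e, ∑ f, G i j k l e f = ∑ e, ∑ f, ∑ l, G i j k l e f := by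
      intro i j k
      rw [sum_comm]
      exact sum_congr rfl fun e _ => sum_comm
    simp only [s1]
    have s2 : ∀ i j, ∑ k, ∑ e, ∑ f, ∑ l, G i j k l e f = ∑ e, ∑ f, ∑ k, ∑ l, G i j k l e f := by
      intro i j
      rw [sum_comm]
      exact sum_congr rfl fun e _ => sum_comm
    simp only [s2]
    have s3 : ∀ i, ∑ j, ∑ e, ∑ f, ∑ k, ∑ l, G i j k l e f = ∑ e, ∑ f, ∑ j, ∑ k, ∑ l, G i j k l e f := by
      intro i
      rw [sum_comm]
      exact sum_congr rfl fun e _ => sum_comm
    simp only [s3]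
    rw [sum_comm]
    exact sum_congr rfl fun e _ => sum_comm
  rw [h1]
  refine sum_congr rfl fun e _ => sum_congr rfl fun f _ => ?_
  exact sum_congr rfl fun i _ => sum_congr rfl fun j _ => sum_congr rfl fun k _ =>
    sum_congr rfl fun l _ => by ring

end ROTaux

open ROTaux

theorem g_ROT (hR4T : G_R4T) : G_ROT := by
  intro n O hO
  obtain ⟨-, -, hsym, hK, -, -, -, -, hnrm, hsb, hexp, -, -⟩ := hR4T n
  have e1 : ∀ (R : T4 n) b c d a, R4 R a b c d = ∑ j, a j * R4 R (sb j) b c d :=
    fun R b c d a => (hexp R a b c d).1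
  have e2 : ∀ (R : T4 n) a c d b, R4 R a b c d = ∑ j, b j * R4 R a (sb j) c d :=
    fun R a c d b => (hexp R a b c d).2.1
  have e3 : ∀ (R : T4 n) a b d c, R4 R a b c d = ∑ j, c j * R4 R a b (sb j) d :=
    fun R a b d c => (hexp R a b c d).2.2.1
  have e4 : ∀ (R : T4 n) a b c d, R4 R a b c d = ∑ j, d j * R4 R a b c (sb j) :=
    fun R a b c d => (hexp R a b c d).2.2.2
  have T3 : ∀ (R : T4 n) (a b c d : Fin n → ℝ), R4 (rot O R) a b c d = R4 R (fun j => ∑ p, a p * O p j)
      (fun j => ∑ p, b p * O p j) (fun j => ∑ p, c p * O p j) (fun j => ∑ p, d p * O p j) := by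
    intro R a b c d
    rw [lin_sum (fun x => R4 R x _ _ _) _ (e1 R _ _ _) a O]
    have s2 : ∀ p, R4 R (O p) (fun j => ∑ p, b p * O p j) (fun j => ∑ p, c p * O p j)
        (fun j => ∑ p, d p * O p j) = ∑ q, b q * R4 R (O p) (O q) (fun j => ∑ p, c p * O p j)
        (fun j => ∑ p, d p * O p j) := fun p =>
      lin_sum (fun x => R4 R (O p) x _ _) _ (e2 R _ _ _) b O
    have s3 : ∀ p q, R4 R (O p) (O q) (fun j => ∑ p, c p * O p j)
        (fun j => ∑ p, d p * O p j) = ∑ r, c r * R4 R (O p) (O q) (O r)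
        (fun j => ∑ p, d p * O p j) := fun p q =>
      lin_sum (fun x => R4 R (O p) (O q) x _) _ (e3 R _ _ _) c O
    have s4 : ∀ p q r, R4 R (O p) (O q) (O r)
        (fun j => ∑ p, d p * O p j) = ∑ s, d s * R4 R (O p) (O q) (O r) (O s) := fun p q r =>
      lin_sum (fun x => R4 R (O p) (O q) (O r) x) _ (e4 R _ _ _) d O
    simp only [s2, s3, s4, mul_sum]
    show ∑ i, ∑ j, ∑ k, ∑ l, R4 R (O i) (O j) (O k) (O l) * a i * b j * c k * d l = _
    exact sum_congr rfl fun i _ => sum_congr rfl fun j _ => sum_congr rfl fun k _ =>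
      sum_congr rfl fun l _ => by ring
  have TK : ∀ (R : T4 n) (u v : Fin n → ℝ), K2 (rot O R) u v =
      K2 R (fun j => ∑ p, u p * O p j) (fun j => ∑ p, v p * O p j) := by
    intro R u v
    rw [hK, hK, T3]
  have T4c : ∀ R : T4 n, IsCurv R → IsCurv (rot O R) := by
    intro R hR
    have h := hsym R hR
    exact ⟨fun a b c d => (h (O a) (O b) (O c) (O d)).1, fun a b c d => (h (O a) (O b) (O c) (O d)).2.1,
      fun a b c d => (h (O a) (O b) (O c) (O d)).2.2.1, fun a b c d => (h (O a) (O b) (O c) (O d)).2.2.2⟩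
  have TB : ∀ (R S : T4 n) a b c d, BB (rot O R) (rot O S) a b c d =
      R4 (BB R S) (O a) (O b) (O c) (O d) := by
    intro R S a b c d
    rw [R4_BB]
    show ∑ e, ∑ f, R4 R (O a) (O e) (O b) (O f) * R4 S (O c) (O e) (O d) (O f) = _
    rw [sum_comm]
    have s1 : ∀ f, ∑ e, R4 R (O a) (O e) (O b) (O f) * R4 S (O c) (O e) (O d) (O f) =
        ∑ e, R4 R (O a) (sb e) (O b) (O f) * R4 S (O c) (sb e) (O d) (O f) := by
      intro f
      refine pars2 hO (fun x y => R4 R (O a) x (O b) (O f) * R4 S (O c) y (O d) (O f))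
        (fun i j => R4 R (O a) (sb i) (O b) (O f) * R4 S (O c) (sb j) (O d) (O f)) fun x y => ?_
      rw [e2 R _ _ _ x, e2 S _ _ _ y, sum_mul_sum]
      exact sum_congr rfl fun i _ => sum_congr rfl fun j _ => by ring
    simp only [s1]
    rw [sum_comm]
    refine sum_congr rfl fun e _ => ?_
    refine pars2 hO (fun x y => R4 R (O a) (sb e) (O b) x * R4 S (O c) (sb e) (O d) y)
      (fun i j => R4 R (O a) (sb e) (O b) (sb i) * R4 S (O c) (sb e) (O d) (sb j)) fun x y => ?_
    rw [e4 R _ _ _ x, e4 S _ _ _ y, sum_mul_sum]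
    exact sum_congr rfl fun i _ => sum_congr rfl fun j _ => by ring
  have TR : ∀ (R : T4 n) a c, Ric (rot O R) a c = ∑ i, ∑ k, O a i * O c k * Ric R i k := by
    intro R a c
    show ∑ b, R4 R (O a) (O b) (O c) (O b) = _
    rw [pars2 hO (fun x y => R4 R (O a) x (O c) y) (fun i j => R4 R (O a) (sb i) (O c) (sb j)) fun x y => by
      rw [e2 R _ _ _ x]
      refine sum_congr rfl fun i _ => ?_
      rw [e4 R _ _ _ y, mul_sum]
      exact sum_congr rfl fun j _ => by ring]
    simp only [R4_sb]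
    rw [sum_comm]
    refine sum_congr rfl fun i _ => ?_
    rw [sum_comm]
    refine sum_congr rfl fun k _ => ?_
    rw [Ric, mul_sum]
    exact sum_congr rfl fun b _ => by ring
  have Ttr : ∀ R : T4 n, ∑ a, Ric (rot O R) a a = ∑ a, Ric R a a := by
    intro R
    simp only [TR]
    exact pars2 hO (fun x y => ∑ i, ∑ k, x i * y k * Ric R i k) (fun i k => Ric R i k) fun x y => rfl
  have Tlam : ∀ R : T4 n, lam (rot O R) = lam R := by
    intro R
    unfold lam
    rw [Ttr]
  have T0 : ∀ (R : T4 n) a c, Ric0 (rot O R) a c = ∑ i, ∑ k, O a i * O c k * Ric0 R i k := by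
    intro R a c
    have h1 : ∀ i k, Ric0 R i k = Ric R i k - lam R * (if i = k then 1 else 0) := by
      intro i k
      unfold Ric0
      rw [Matrix.sub_apply, Matrix.smul_apply, Matrix.one_apply, smul_eq_mul]
    have h2 : Ric0 (rot O R) a c = Ric (rot O R) a c - lam (rot O R) * (if a = c then 1 else 0) := by
      unfold Ric0
      rw [Matrix.sub_apply, Matrix.smul_apply, Matrix.one_apply, smul_eq_mul]
    rw [h2, TR, Tlam, ← row hO a c]
    simp only [h1, mul_sub, sum_sub_distrib]
    congr 1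
    rw [mul_sum]
    refine sum_congr rfl fun i _ => ?_
    rw [sum_eq_single i]
    · simp
      ring
    · intro k _ hk
      simp [hk.symm]
    · intro h
      exact absurd (mem_univ i) h
  refine ⟨dot_O hO, ?_, T3, T4c, ?_, ?_, Tlam, ?_, ?_⟩
  · intro R a b c d
    rw [T3, back hO, back hO, back hO, back hO]
  · intro R hR
    refine ⟨T4c R hR.1, fun z x y => ?_⟩
    unfold fl
    rw [TK, TK, ← wd_T hO hnrm x z, ← wd_T hO hnrm y z]
    exact hR.2 _ _ _
  · intro R
    funext a b c d
    show BB (rot O R) (rot O R) a b c d - BB (rot O R) (rot O R) a b d c +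
      BB (rot O R) (rot O R) a c b d - BB (rot O R) (rot O R) a d b c = R4 (Q R) (O a) (O b) (O c) (O d)
    rw [R4_Q, TB, TB, TB, TB]
  · intro R
    unfold hh
    have h1 : ∀ a b, Ric0 (rot O R) a b = dot (O a) (fun i => ∑ k, O b k * Ric0 R i k) := by
      intro a b
      rw [T0]
      unfold dot
      refine sum_congr rfl fun i _ => ?_
      rw [mul_sum]
      exact sum_congr rfl fun k _ => by ring
    have h2 : ∀ u : Fin n → ℝ, ∑ a, dot (O a) u ^ 2 = ∑ i, u i ^ 2 := by
      intro u
      have := dot_O hO u u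
      unfold dot at this ⊢
      simpa only [sq] using this
    simp only [h1]
    rw [sum_comm]
    simp only [h2]
    rw [sum_comm]
    refine sum_congr rfl fun i _ => ?_
    exact h2 (fun k => Ric0 R i k)
  · intro R v
    have h1 : rq (Ric (rot O R)) (fun p => dot (O p) v) =
        ∑ i, ∑ k, Ric R i k * (∑ p, dot (O p) v * O p i) * (∑ q, dot (O q) v * O q k) := by
      unfold rq
      simp only [TR]
      simp only [sum_mul, mul_sum]
      -- left p q i k, right i k q p
      have s : ∀ G : Fin n → Fin n → Fin n → Fin n → ℝ,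
          ∑ p, ∑ q, ∑ i, ∑ k, G p q i k = ∑ i, ∑ k, ∑ q, ∑ p, G p q i k := by
        intro G
        have s1 : ∀ p, ∑ q, ∑ i, ∑ k, G p q i k = ∑ i, ∑ k, ∑ q, G p q i k := by
          intro p
          rw [sum_comm]
          exact sum_congr rfl fun i _ => sum_comm
        simp only [s1]
        rw [sum_comm]
        refine sum_congr rfl fun i _ => ?_
        rw [sum_comm]
        refine sum_congr rfl fun k _ => ?_
        rw [sum_comm]
      rw [s]
      refine sum_congr rfl fun i _ => sum_congr rfl fun k _ => ?_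
      refine sum_congr rfl fun q _ => sum_congr rfl fun p _ => by ring
    rw [h1]
    have h2 : ∀ i, ∑ p, dot (O p) v * O p i = v i := fun i => congrFun (back hO v) i
    simp only [h2]
    rfl

end Pool.Agent.Helper47.FLG
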